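import Mathlib
import Pool.Agent.V11291.EK.Ex

/-!
# The `3`-part of the Birch and Swinnerton-Dyer conjecture over `ℚ(√-3)` for the cubic twists by the
# products of a fixed number of primes from an arbitrary set of primes of positive density

`K` is the field of third roots of unity, and `E_D` is the curve `y² + D y = x³` over `K`.  We fix a
number `m` and an arbitrary set `S` of prime ideals of `𝓞 K`.  The family consists of the `D = 1` modulo
`3` in `𝓞 K` whose norm is squarefree (the prime factors of `D` have degree one, and no two of them are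
conjugate) and not `1` modulo `9`, with exactly `m` prime factors, all of them in `S`.

* (library) For all these `D` the series `L(E_D / K, s)` is continued to an entire function, and the
  quotient `ρ` of `L(E_D / K, 1)` and of the right-hand side of the conjecture (for rank `0`) without the
  order of `Ш` is integral at every valuation of `ℂ` above `3`, and it is a unit there if and only if
  `E_D(K)` is finite and `Ш(E_D / K)[3^∞] = 0`; then `L(E_D / K, 1) ≠ 0`.
* (new) Suppose that `m` residue classes modulo `9`, which are `1` modulo `3`, with a product that is not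
  `1` modulo `9`, contain each the norms of many primes in `S` (at least a positive proportion of the
  primes up to `Y`, for all large `Y`).  Then the number of the `D` of norm at most `X` in the family has
  the order of magnitude `X (log log X)^(m - 1) / log X`, and the proportion of those for which `E_D(K)`
  is finite and `Ш(E_D / K)[3^∞] = 0` (equivalently: `L(E_D / K, 1) ≠ 0` and the `3`-part of the
  conjecture holds with a group `Ш` of order prime to `3`) tends to the rational number
  `∏_{i < m / 2} (1 - 3^{-(2 i + 1)})`, the proportion of the nonsingular ones among the symmetric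
  matrices of size `m - 1` over the field with three elements: `1, 2/3, 2/3, 52/81, 52/81, …` for
  `m = 1, 2, 3, 4, 5, …`.
* The condition on `S` holds for the primes with norms in a residue class modulo any number prime to `3`
  (so also for the set of all primes).

The proof.  The criterion of the library describes the good `D` by the Laplacian of the matrix of the
cubic residue symbols of the prime factors of `D`.  The prime factors of almost all `D` of the family are
larger than any given power of `log X`; in boxes the symbols are equidistributed by the bilinear estimates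
of the library, for arbitrary sets of primes, since an error of a power of the logarithm is enough; the
lower bound for the size of the family uses only the hypothesis on `S`.
-/

set_option autoImplicit false

namespace Pool.Agent.Results.MP_9ab903_nt.FixedNumberThreePart

open NumberField IsDedekindDomain WeierstrassCurve Filter Topology Finset
open Pool.Agent.TH841.NF.D (Sha)
open Pool.Agent.Y696 (NonsingRed)
open scoped Classical

/-- The curve `E_D : y² + D y = x³`. -/
def curve {K : Type} [Field K] (D : K) : WeierstrassCurve K := ⟨0, 0, D, 0, 0⟩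

variable {K : Type} [Field K] [NumberField K]

/-- `D` is squarefree and `1` modulo `3`, and its norm is not `1` modulo `9`. -/
def InClass (D : 𝓞 K) : Prop :=
  (3 : 𝓞 K) ∣ D - 1 ∧ Squarefree D ∧ ¬ (9 : ℤ) ∣ Algebra.norm ℤ D - 1

/-- The equation `W` is minimal at every finite place `v`, the number `c v` is the index of the
group of the points of nonsingular reduction in `W(K_v)` (the Tamagawa number), and `c v = 1` for
all but finitely many `v`. -/
def IsTamagawa (W : WeierstrassCurve K) (c : HeightOneSpectrum (𝓞 K) → ℕ) : Prop :=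
  (∀ v : HeightOneSpectrum (𝓞 K),
    IsMinimal (v.adicCompletionIntegers K) (W.baseChange (v.adicCompletion K)) ∧
    ∃ H : AddSubgroup (W.baseChange (v.adicCompletion K)).toAffine.Point,
      (∀ P, P ∈ H ↔ NonsingRed Valued.v (W.baseChange (v.adicCompletion K)) P) ∧
      H.index = c v) ∧
  {v | c v ≠ 1}.Finite

/-- `E_D(K)` is finite and the `3`-primary part of `Ш(E_D / K)` is trivial. -/
def FiniteAndTrivial (D : 𝓞 K) : Prop :=
  Finite (curve (D : K)).toAffine.Point ∧ ∀ (n : ℕ) (x : Sha (curve (D : K))), 3 ^ n • x = 0 → x = 0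

/-- The order of the torsion subgroup of `E_D(K)`. -/
noncomputable def torsionOrder (D : 𝓞 K) : ℕ :=
  Nat.card (AddCommGroup.torsion (curve (D : K)).toAffine.Point)

/-- The torsion subgroup of `E_D(K)` is finite, of order divisible by `3` and not by `9`; `Lf` is an
entire function equal to `L(E_D / K, s)` for `Re s > 3 / 2`; for every embedding `σ` of `K` and every
pair of periods `ω₁, ω₂` of a lattice `Λ` with `g₂ = 0`, `g₃ = - σ(D)²` (the period lattice of
`E_D`; `A = |Im (conj ω₁ ω₂)|` is the area of a period parallelogram, and `2 A` is the factor of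
`Ω(E_D)` at the complex place; such a `Λ` exists)
`Lf 1 = ρ · 2 A · ∏ c_v / (√|Δ(K)| |E_D(K)_tors|²)`, where `ρ` is integral at every valuation `v` of
`ℂ` above `3`, and a unit if and only if `E_D(K)` is finite and `Ш(E_D / K)[3^∞] = 0`. -/
def Law (D : 𝓞 K) : Prop :=
  Finite (AddCommGroup.torsion (curve (D : K)).toAffine.Point) ∧
  padicValNat 3 (torsionOrder D) = 1 ∧
  ∃ (Lf : ℂ → ℂ) (c : HeightOneSpectrum (𝓞 K) → ℕ),
    Differentiable ℂ Lf ∧
    (∀ s : ℂ, 3 / 2 < s.re →
      LSeriesSummable ((fun n : ℤ => (n : ℂ)) ∘ (curve (D : K)).LFunction) s ∧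
        Lf s = (curve (D : K)).LSeries s) ∧
    (FiniteAndTrivial D → Lf 1 ≠ 0) ∧
    IsTamagawa (curve (D : K)) c ∧
    ∀ σ : K →+* ℂ, (∃ Λ : PeriodPair, Λ.g₂ = 0 ∧ Λ.g₃ = -(σ D) ^ 2) ∧
      ∀ Λ : PeriodPair, Λ.g₂ = 0 → Λ.g₃ = -(σ D) ^ 2 → ∃ ρ : ℂ,
        Lf 1 = ρ * (((2 * |((starRingEnd ℂ) Λ.ω₁ * Λ.ω₂).im| : ℝ) : ℂ) * ((∏ᶠ w, c w : ℕ) : ℂ) /
          (((Real.sqrt |(discr K : ℝ)| : ℝ) : ℂ) * (torsionOrder D : ℂ) ^ 2)) ∧
        ∀ (Γ : Type) [LinearOrderedCommGroupWithZero Γ] (v : Valuation ℂ Γ), v 3 < 1 →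
          v ρ ≤ 1 ∧ (v ρ = 1 ↔ FiniteAndTrivial D)

/-- The family: `D = 1` modulo `3`, the norm of `D` is squarefree, not `1` modulo `9`, and has exactly
`m` prime factors, and all the prime ideals that contain `D` are in `S`. -/
def InFamily (S : Set (Ideal (𝓞 K))) (m : ℕ) (D : 𝓞 K) : Prop :=
  (3 : 𝓞 K) ∣ D - 1 ∧ ¬ (9 : ℤ) ∣ Algebra.norm ℤ D - 1 ∧ Squarefree (Algebra.norm ℤ D) ∧
    (Algebra.norm ℤ D).natAbs.primeFactors.card = m ∧
    ∀ P : Ideal (𝓞 K), P.IsPrime → D ∈ P → P ∈ S

/-- At least a positive proportion of the primes up to `Y` is `r` modulo `9` and the norm of an ideal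
in `S`, for all large `Y`. -/
def Dense (S : Set (Ideal (𝓞 K))) (r : ℕ) : Prop := ∃ (δ : ℝ) (Y₀ : ℕ), 0 < δ ∧ ∀ Y : ℕ, Y₀ ≤ Y →
  δ * (Y / Real.log Y) ≤
    (Nat.card {p : ℕ // p ≤ Y ∧ p.Prime ∧ p % 9 = r ∧ ∃ P ∈ S, Ideal.absNorm P = p} : ℝ)

/-- The condition on `S`: there are `m` residue classes modulo `9`, all `1` modulo `3`, with a product
that is not `1` modulo `9`, each of which contains the norms of many primes in `S`. -/
def IsRich (S : Set (Ideal (𝓞 K))) (m : ℕ) : Prop :=
  ∃ r : Fin m → ℕ, (∏ i, r i) % 9 ≠ 1 ∧ ∀ i, r i % 3 = 1 ∧ Dense S (r i)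

/-- The number of the `D` in the family of norm at most `X` with the property `Q`. -/
noncomputable def count (S : Set (Ideal (𝓞 K))) (m : ℕ) (Q : 𝓞 K → Prop) (X : ℕ) : ℕ :=
  {D : 𝓞 K | Algebra.norm ℤ D ≤ X ∧ InFamily S m D ∧ Q D}.ncard

lemma sqf_of_norm (D : 𝓞 K) (h : Squarefree (Algebra.norm ℤ D)) : Squarefree D := by
  intro x hx
  have h1 : Algebra.norm ℤ x * Algebra.norm ℤ x ∣ Algebra.norm ℤ D := by
    rw [← map_mul]
    exact map_dvd (Algebra.norm ℤ) hx
  have h2 := h _ h1
  rw [Int.isUnit_iff_natAbs_eq, ← Ideal.absNorm_span_singleton, Ideal.absNorm_eq_one_iff,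
    Ideal.span_singleton_eq_top] at h2
  exact h2

lemma fam_iff (S : Set (Ideal (𝓞 K))) (m : ℕ) (D : 𝓞 K) :
    InFamily S m D ↔ Pool.Agent.V11291.EK.FamK S m D := by
  unfold InFamily Pool.Agent.V11291.EK.FamK Pool.Agent.Y696.CTK.ClsK
  constructor
  · rintro ⟨h1, h2, h3, h4, h5⟩
    exact ⟨⟨h1, sqf_of_norm D h3, h2⟩, h3, h4, h5⟩
  · rintro ⟨⟨h1, -, h2⟩, h3, h4, h5⟩
    exact ⟨h1, h2, h3, h4, h5⟩

lemma dense_iff (S : Set (Ideal (𝓞 K))) (r : ℕ) : Dense S r ↔
    Pool.Agent.V11291.FK.Dn fun p => p.Prime ∧ p % 9 = r ∧ ∃ P ∈ S, Ideal.absNorm P = p := by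
  have e : ∀ Y : ℕ, Nat.card {p : ℕ // p ≤ Y ∧ p.Prime ∧ p % 9 = r ∧ ∃ P ∈ S, Ideal.absNorm P = p} =
      ((range (Y + 1)).filter fun p => p.Prime ∧ p % 9 = r ∧
        ∃ P ∈ S, Ideal.absNorm P = p).card := by
    intro Y
    rw [← Nat.subtype_card]
    intro p
    rw [mem_filter, mem_range, Nat.lt_succ_iff]
  unfold Dense Pool.Agent.V11291.FK.Dn
  constructor
  · rintro ⟨δ, Y₀, hδ, h⟩
    refine ⟨δ, Y₀, hδ, fun Y hY => (h Y hY).trans (le_of_eq ?_)⟩
    rw [e Y]
    congr 2
    ext p
    simp only [mem_filter]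
  · rintro ⟨δ, Y₀, hδ, h⟩
    refine ⟨δ, Y₀, hδ, fun Y hY => (h Y hY).trans (le_of_eq ?_)⟩
    rw [e Y]
    congr 2
    ext p
    simp only [mem_filter]

lemma rich_iff (S : Set (Ideal (𝓞 K))) (m : ℕ) : IsRich S m ↔ Pool.Agent.V11291.EK.Rich S m := by
  unfold IsRich Pool.Agent.V11291.EK.Rich
  simp only [dense_iff]

theorem result (K : Type) [Field K] [NumberField K] [IsCyclotomicExtension {3} ℚ K] :
    (∀ (S : Set (Ideal (𝓞 K))) (m : ℕ), 1 ≤ m → IsRich S m →
      (∃ (c C : ℝ) (X₀ : ℕ), 0 < c ∧ 0 < C ∧ ∀ X : ℕ, X₀ ≤ X →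
        c * (X * Real.log (Real.log X) ^ (m - 1) / Real.log X) ≤
          (count S m (fun _ => True) X : ℝ) ∧
        (count S m (fun _ => True) X : ℝ) ≤
          C * (X * Real.log (Real.log X) ^ (m - 1) / Real.log X)) ∧
      Tendsto (fun X : ℕ => (count S m FiniteAndTrivial X : ℝ) /
        (count S m (fun _ => True) X : ℝ)) atTop
        (𝓝 (∏ i ∈ range (m / 2), (1 - (1 / 3 : ℝ) ^ (2 * i + 1))))) ∧
    (∀ (S : Set (Ideal (𝓞 K))) (m : ℕ) (D : 𝓞 K), InFamily S m D → Law D) ∧
    (∀ (q c m : ℕ), Nat.Coprime q 3 → Nat.Coprime c q → 1 ≤ m →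
      IsRich {P : Ideal (𝓞 K) | Ideal.absNorm P % q = c % q} m) := by
  have e1 : ∀ (S : Set (Ideal (𝓞 K))) (m X : ℕ), count S m (fun _ => True) X =
      {D : 𝓞 K | Algebra.norm ℤ D ≤ X ∧ Pool.Agent.V11291.EK.FamK S m D}.ncard := by
    intro S m X
    unfold count
    simp only [fam_iff, and_true]
  have e2 : ∀ (S : Set (Ideal (𝓞 K))) (m X : ℕ), count S m FiniteAndTrivial X =
      {D : 𝓞 K | Algebra.norm ℤ D ≤ X ∧ Pool.Agent.V11291.EK.FamK S m D ∧
        Pool.Agent.Y696.CTK.Tri D}.ncard := by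
    intro S m X
    unfold count
    simp only [fam_iff]
    rfl
  refine ⟨fun S m hm hS => ⟨?_, ?_⟩, fun S m D hD => ?_, fun q c m hq hc hm => ?_⟩
  · obtain ⟨c, C, X₀, hc, hC, h⟩ := Pool.Agent.V11291.EK.K_size hm ((rich_iff S m).1 hS)
    refine ⟨c, C, X₀, hc, hC, fun X hX => ?_⟩
    rw [e1]
    exact h X hX
  · refine (Pool.Agent.V11291.EK.K_law hm ((rich_iff S m).1 hS)).congr fun X => ?_
    rw [e1, e2]
  · exact ((Pool.Agent.XL6.finalTP K).2.1 D ((fam_iff S m D).1 hD).1).1
  · exact (rich_iff _ m).2 (Pool.Agent.V11291.EK.rich_classK hq hc hm)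

end Pool.Agent.Results.MP_9ab903_nt.FixedNumberThreePart
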