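import Pool.Agent.V11290.UL.Lead

/-!
# A numerical form of the strong conjecture over number fields, without any hypothesis on zeros

Let `E` be an elliptic curve over a number field `K`, `L(E, s)` its `L`-series (all the Euler factors,
Mathlib's `WeierstrassCurve.LSeries`) and `F` a continuation of `L(E, s)` along the real axis to `s = 1`,
meromorphic at the real points of `[1, 2]`. Such continuations are known in many cases, for example
over all totally real and all CM fields, but nothing is known about zeros and poles between `1` and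
`3/2`; the smoothed numerical forms of the conjecture with positive weights see all these zeros and
poles. For `γ > π/2` let

`S_γ(T) = - ∑_v ∑_{k ≥ 1} (α_v^k + β_v^k) q_v^{-k} e^{iγ k log q_v / T} / (k Γ(1 + k log q_v / T))`,

an absolutely convergent series. Then for every curve, `m` the order of `F` at `1`, `l` the leading
coefficient and `κ` the number of the real zeros `> 1` minus the number of the real poles `> 1`,

`S_γ(T) = m (log T - Λ_γ) - log |l| + iπκ + O(1/T)`,

with the explicit constant `Λ_γ`; so `F(s) / (s - 1)^r` tends to a number `B ≠ 0` for `s → 1`, as is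
predicted with `r = rk E(K)` and the number `B` of Birch and Swinnerton-Dyer, if and only if
`exp (S_γ(T)) T^{-r}` tends to `exp (- r Λ_γ) / B`.

The library used is by the helpers 189, 187, 338, 351, 392 of an earlier round.
-/

set_option autoImplicit false

namespace Pool.Agent.Results.MP_9ab903_nt.NumericalForm

open IsDedekindDomain NumberField Filter Topology Set

/-- the power sums `α^n + β^n` of the roots of `X² - a X + e` -/
def powerSum (a e : ℤ) : ℕ → ℤ
  | 0 => 2
  | 1 => a
  | (n + 2) => a * powerSum a e (n + 1) - e * powerSum a e n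

variable {K : Type} [Field K] [NumberField K]

/-- the norm of a prime of `K` -/
noncomputable def q (v : HeightOneSpectrum (𝓞 K)) : ℝ := ((Ideal.absNorm v.asIdeal : ℕ) : ℝ)

/-- the local polynomial `1 - a_v X + e_v X²` of `E` at `v` (Mathlib's local polynomial of `E` over the
completion), the reciprocal of the Euler factor -/
noncomputable def localPoly (E : WeierstrassCurve K) (v : HeightOneSpectrum (𝓞 K)) :
    Polynomial ℤ :=
  (E.baseChange (v.adicCompletion K)).localPolynomial (v.adicCompletionIntegers K)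

/-- the summand of `S_γ(T)` at `v` and `k = x.2 + 1` -/
noncomputable def term (E : WeierstrassCurve K) (γ T : ℝ) (x : HeightOneSpectrum (𝓞 K) × ℕ) : ℂ :=
  -((powerSum (-(localPoly E x.1).coeff 1) ((localPoly E x.1).coeff 2) (x.2 + 1) : ℤ) : ℂ) *
    Complex.exp (γ * ((x.2 + 1) * Real.log (q x.1) / T) * Complex.I) /
    ((x.2 + 1) * q x.1 ^ (x.2 + 1) * Real.Gamma (1 + (x.2 + 1) * Real.log (q x.1) / T))

/-- the sum `S_γ(T)` -/
noncomputable def S (E : WeierstrassCurve K) (γ T : ℝ) : ℂ := ∑' x, term E γ T x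

/-- `F` continues the `L`-series of `E` along the real axis to `s = 1` -/
def IsContinuation (E : WeierstrassCurve K) (F : ℂ → ℂ) : Prop :=
  (∀ x : ℝ, 1 ≤ x → x ≤ 2 → MeromorphicAt F (x : ℂ)) ∧ ∀ s : ℂ, 2 < s.re → F s = E.LSeries s

/-- the number of real zeros `> 1` minus the number of real poles `> 1`, with multiplicities -/
noncomputable def excess (F : ℂ → ℂ) : ℤ :=
  ∑ᶠ σ ∈ Ioi (1 : ℝ), (meromorphicOrderAt F (σ : ℂ)).untop₀

/-- `Λ_γ = ∫_0^∞ (e^{-t} - e^{iγt} / Γ(1 + t)) dt / t` -/
noncomputable def Lam (γ : ℝ) : ℂ := ∫ t in Ioi (0 : ℝ),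
  (Complex.exp (-(t : ℂ)) - Complex.exp ((γ * t : ℝ) * Complex.I) * ((Real.Gamma (1 + t))⁻¹ : ℝ)) / t

open Pool.Agent.W187.UR Pool.Agent.W189.NF

theorem powerSum_eq (a e : ℤ) (n : ℕ) : powerSum a e n = Pool.Agent.W189.LC.psum a e n := by
  induction n using Nat.twoStepInduction with
  | zero => rfl
  | one => rfl
  | more n ih1 ih2 =>
    simp only [powerSum, Pool.Agent.W189.LC.psum]
    rw [ih1, ih2]

theorem coeffs (E : WeierstrassCurve K) (v : HeightOneSpectrum (𝓞 K)) :
    -(localPoly E v).coeff 1 = aV E v ∧ (localPoly E v).coeff 2 = eV E v := by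
  unfold localPoly
  rw [localPolynomial_eq]
  constructor
  · simp only [Polynomial.coeff_add, Polynomial.coeff_sub, Polynomial.coeff_C_mul,
      Polynomial.coeff_X, Polynomial.coeff_X_pow, Polynomial.coeff_one]
    norm_num
    rfl
  · simp only [Polynomial.coeff_add, Polynomial.coeff_sub, Polynomial.coeff_C_mul,
      Polynomial.coeff_X, Polynomial.coeff_X_pow, Polynomial.coeff_one]
    norm_num
    rfl

theorem term_eq (E : WeierstrassCurve K) (γ T : ℝ) (x : HeightOneSpectrum (𝓞 K) × ℕ) :
    term E γ T x = rTerm E γ T x := by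
  unfold term rTerm bsTerm q
  rw [(coeffs E x.1).1, (coeffs E x.1).2, powerSum_eq]
  push_cast
  ring

theorem S_eq (E : WeierstrassCurve K) (γ T : ℝ) : S E γ T = rSum E γ T :=
  tsum_congr fun x => term_eq E γ T x

/-- **A numerical form of the strong conjecture of Birch and Swinnerton-Dyer over number fields,
without any hypothesis on zeros and poles.** -/
theorem result (E : WeierstrassCurve K) (F : ℂ → ℂ) (hF : IsContinuation E F) (γ : ℝ)
    (hγ : Real.pi / 2 < γ) :
    (∀ T : ℝ, 0 < T → Summable fun x => ‖term E γ T x‖) ∧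
    (∃ (m : ℤ) (l : ℝ), l ≠ 0 ∧ meromorphicOrderAt F 1 = m ∧
      Tendsto (fun s : ℂ => F s / (s - 1) ^ m) (𝓝[≠] 1) (𝓝 l) ∧
      (fun T : ℝ => S E γ T - (m * (Real.log T - Lam γ) - Real.log |l| +
        Real.pi * excess F * Complex.I)) =O[atTop] (fun T : ℝ => 1 / T)) ∧
    ∀ (r : ℕ) (B : ℝ), B ≠ 0 →
      (Tendsto (fun s : ℂ => F s / (s - 1) ^ r) (𝓝[≠] 1) (𝓝 B) ↔
        Tendsto (fun T : ℝ => Complex.exp (S E γ T) / (T : ℂ) ^ r) atTop
          (𝓝 (Complex.exp (-(r * Lam γ)) / B))) := by
  have hF' : IsCont E F := hF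
  have hmer : MeromorphicAt F 1 := by
    have := hF.1 1 le_rfl (by norm_num)
    simpa using this
  refine ⟨fun T hT => ?_, ?_, fun r B hB => ?_⟩
  · refine (bsTerm_summable E hT).congr fun x => ?_
    rw [term_eq, norm_rTerm]
  · obtain ⟨m, l, hm, hl, hl0, hO, -⟩ := nf_rot hF' hγ
    refine ⟨m, l, hl0, hm, ?_, ?_⟩
    · have := (Pool.Agent.V11290.UL.lead_iff hmer m (B := (l : ℂ))
        (by exact_mod_cast hl0)).1 ⟨hm, hl⟩
      exact this
    · refine hO.congr_left fun T => ?_
      rw [S_eq]
      rfl
  · have h1 := nf_iff hF' hγ r hB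
    have h2 := Pool.Agent.V11290.UL.lead_iff hmer (r : ℤ) (B := (B : ℂ)) (by exact_mod_cast hB)
    simp only [zpow_natCast] at h2
    rw [← h2, h1]
    simp only [S_eq]
    rfl

end Pool.Agent.Results.MP_9ab903_nt.NumericalForm
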