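import Pool.Agent.V11333.Cone5

/-!
# The leading term of elliptic curves over number fields and one-sided bounds

Let `E : y² = x³ + a x + b` be an elliptic curve over a number field `K`, `a, b ∈ 𝓞_K`, and let
`L(E, s) = ∏_v (1 - a_v q_v^{-s} + q_v^{1 - 2s})⁻¹` be its `L`-function, without the Euler factors at the
primes `v` dividing `6 (4 a³ + 27 b²)`; `a_v = q_v - N_v` for the number `N_v` of affine points modulo
`v`. Let `t_k(v)` be the trace of the `k`-th power of Frobenius, `t_0 = 2`, `t_1 = a_v`,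
`t_{k+2} = a_v t_{k+1} - q_v t_k`, and for `ρ > 1`

`S_ρ(Y) = ∑_{v, k ≥ 1} w_ρ(k log q_v / log Y) t_k(v) / (k q_v^k)`,
`w_ρ(u) = (1/2πi) ∫ exp(z - u z^{1/ρ}) dz/z`,

where `q_v^k ≤ exp ((log Y)^{ρ'})` (any `ρ' > ρ`): the smoothed logarithm of the Euler product at `s = 1`.
Let `r` be a natural number and `B > 0` (for the conjecture of Birch and Swinnerton-Dyer: the rank of
`E(K)` and the leading coefficient predicted by the conjecture, multiplied by the values at `s = 1` of the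
omitted local polynomials). It is shown that for every `ρ₀ ≥ 1` the following are EQUIVALENT:

* `L(E, s)` has a holomorphic continuation WITHOUT ZEROS to the union of the half plane `Re s > 3/2` and
  the sector `|arg (s - 1)| < π/(2ρ₀)`, with `L(E, s)/(s - 1)^r → B` for `s → 1` in the smaller sectors;
* `L(E, s)` is analytic at all REAL `s > 1` (after a continuation along the real axis; zeros are
  allowed), `L(E, s)/(s - 1)^r → B` for real `s → 1`, and `S_ρ(Y) + r log log Y` is bounded BELOW for all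
  `ρ > ρ₀`;
* `1/L(E, s)` is analytic at all real `s > 1`, `(s - 1)^r/L(E, s) → 1/B` for real `s → 1`, and
  `S_ρ(Y) + r log log Y` is bounded ABOVE for all `ρ > ρ₀`;
* `S_ρ(Y) + r log log Y → log B - r γ/ρ` for all `ρ > ρ₀`.

For `ρ₀ = 1` the sector is the half plane `Re s > 1`. So the leading-term formula on the real axis and a
ONE-SIDED bound of the Euler products give the Riemann hypothesis to the right of the central line and
the asymptotic formula for the smoothed Euler products. Over `K = ℚ` the continuation is known, so there the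
order and the leading coefficient on the real axis are given, and the one-sided bounds alone are
equivalent to the Riemann hypothesis in the sector.
-/

set_option autoImplicit false

namespace Pool.Agent.Results.MP_9ab903_nt.OneSidedLeadingTerm

open Filter Topology Set NumberField IsDedekindDomain

variable {K : Type} [Field K] [NumberField K]

/-- The norm `q_v`. -/
noncomputable def nrm (v : HeightOneSpectrum (𝓞 K)) : ℕ := Ideal.absNorm v.asIdeal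

/-- `v` does not divide `6 (4 a³ + 27 b²)`. -/
def Good (a b : 𝓞 K) (v : HeightOneSpectrum (𝓞 K)) : Prop :=
  6 * (4 * a ^ 3 + 27 * b ^ 2) ∉ v.asIdeal

/-- The number of affine points of `y² = x³ + a x + b` modulo `v`. -/
noncomputable def pts (a b : 𝓞 K) (v : HeightOneSpectrum (𝓞 K)) : ℕ :=
  Nat.card {P : (𝓞 K ⧸ v.asIdeal) × (𝓞 K ⧸ v.asIdeal) //
    P.2 ^ 2 = P.1 ^ 3 + Ideal.Quotient.mk v.asIdeal a * P.1 + Ideal.Quotient.mk v.asIdeal b}

/-- The trace `t_k(v)` of the `k`-th power of Frobenius: `t_0 = 2`, `t_1 = a_v = q_v - N_v` and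
`t_{k+2} = a_v t_{k+1} - q_v t_k`. -/
noncomputable def trace (a b : 𝓞 K) (v : HeightOneSpectrum (𝓞 K)) : ℕ → ℝ
  | 0 => 2
  | 1 => (nrm v : ℝ) - pts a b v
  | (k + 2) => ((nrm v : ℝ) - pts a b v) * trace a b v (k + 1) - nrm v * trace a b v k

/-- The Euler factor `(1 - a_v q_v^{-s} + q_v^{1 - 2s})⁻¹`, `a_v = q_v - N_v`. -/
noncomputable def factor (a b : 𝓞 K) (v : HeightOneSpectrum (𝓞 K)) (s : ℂ) : ℂ :=
  (1 - ((nrm v : ℂ) - pts a b v) * (nrm v : ℂ) ^ (-s) + (nrm v : ℂ) ^ (1 - 2 * s))⁻¹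

/-- The open sector `|arg (s - 1)| < π/(2ρ)` with vertex `1`. -/
def Sector (ρ : ℝ) : Set ℂ := {s | s ≠ 1 ∧ |(s - 1).arg| < Real.pi / (2 * ρ)}

/-- `L(E, s)` has a holomorphic continuation `G` without zeros to the union of the sector
`|arg (s - 1)| < π/(2ρ₀)` and the half plane `Re s > 3/2`, and `G(s)/(s - 1)^r → B` for `s → 1` in the
sectors `|arg (s - 1)| < π/(2ρ)`, `ρ > ρ₀`. -/
def Continues (a b : 𝓞 K) (ρ₀ : ℝ) (r : ℕ) (B : ℝ) : Prop :=
  ∃ G : ℂ → ℂ, (∀ s : ℂ, s ∈ Sector ρ₀ ∨ 3 / 2 < s.re → DifferentiableAt ℂ G s ∧ G s ≠ 0) ∧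
    (∀ s : ℂ, 3 / 2 < s.re → HasProd (fun v : {v // Good a b v} => factor a b v.1 s) (G s)) ∧
    ∀ ρ : ℝ, ρ₀ < ρ → Tendsto (fun s : ℂ => G s / (s - 1) ^ r) (𝓝[Sector ρ] 1) (𝓝 (B : ℂ))

/-- `L(E, s)` has a continuation `F` which is analytic at all real `x > 1`, with `F(x)/(x - 1)^r → B`
for real `x → 1`, `x > 1`. -/
def RealContinues (a b : 𝓞 K) (r : ℕ) (B : ℝ) : Prop :=
  ∃ F : ℂ → ℂ, (∀ x : ℝ, 1 < x → AnalyticAt ℂ F x) ∧
    (∀ x : ℝ, 3 / 2 < x → HasProd (fun v : {v // Good a b v} => factor a b v.1 x) (F x)) ∧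
    Tendsto (fun x : ℝ => F x / ((x : ℂ) - 1) ^ r) (𝓝[>] 1) (𝓝 (B : ℂ))

/-- `1/L(E, s)` has a continuation `F` which is analytic at all real `x > 1`, with
`F(x) (x - 1)^r → 1/B` for real `x → 1`, `x > 1`. -/
def RealContinuesInv (a b : 𝓞 K) (r : ℕ) (B : ℝ) : Prop :=
  ∃ F : ℂ → ℂ, (∀ x : ℝ, 1 < x → AnalyticAt ℂ F x) ∧
    (∀ x : ℝ, 3 / 2 < x → HasProd (fun v : {v // Good a b v} => factor a b v.1 x) (F x)⁻¹) ∧
    Tendsto (fun x : ℝ => F x * ((x : ℂ) - 1) ^ r) (𝓝[>] 1) (𝓝 ((B : ℂ)⁻¹))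

/-- The weight `w_ρ(u) = (1/2πi) ∫_{Re z = 1} exp(z - u z^{1/ρ}) dz/z`. -/
noncomputable def weight (ρ u : ℝ) : ℝ :=
  (2 * Real.pi)⁻¹ * ∫ t : ℝ, (Complex.exp ((1 + t * Complex.I) -
    u * (1 + t * Complex.I) ^ ((ρ⁻¹ : ℝ) : ℂ)) / (1 + t * Complex.I)).re

/-- `S_ρ(Y)`: the sum of `w_ρ(k log q_v / log Y) t_k(v) / (k q_v^k)` over the good primes `v` and the
`k ≥ 1` (here `k = p.2 + 1`) with `q_v^k ≤ exp ((log Y)^{ρ'})`. -/
noncomputable def mean (a b : 𝓞 K) (ρ ρ' Y : ℝ) : ℝ :=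
  ∑ᶠ (p : {v // Good a b v} × ℕ) (_ : (nrm p.1.1 : ℝ) ^ (p.2 + 1) ≤ Real.exp (Real.log Y ^ ρ')),
    weight ρ (((p.2 : ℝ) + 1) * Real.log (nrm p.1.1) / Real.log Y) *
      (trace a b p.1.1 (p.2 + 1) / (((p.2 : ℝ) + 1) * (nrm p.1.1 : ℝ) ^ (p.2 + 1)))

/-- `S_ρ(Y) + r log log Y` is bounded below for `Y → ∞`, for all `ρ' > ρ > ρ₀`. -/
def Lower (a b : 𝓞 K) (ρ₀ : ℝ) (r : ℕ) : Prop :=
  ∀ ρ ρ' : ℝ, ρ₀ < ρ → ρ < ρ' → ∃ C : ℝ, ∀ᶠ Y : ℝ in atTop,
    -C ≤ mean a b ρ ρ' Y + r * Real.log (Real.log Y)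

/-- `S_ρ(Y) + r log log Y` is bounded above for `Y → ∞`, for all `ρ' > ρ > ρ₀`. -/
def Upper (a b : 𝓞 K) (ρ₀ : ℝ) (r : ℕ) : Prop :=
  ∀ ρ ρ' : ℝ, ρ₀ < ρ → ρ < ρ' → ∃ C : ℝ, ∀ᶠ Y : ℝ in atTop,
    mean a b ρ ρ' Y + r * Real.log (Real.log Y) ≤ C

/-- `S_ρ(Y) + r log log Y → log B - r γ/ρ` for `Y → ∞`, for all `ρ' > ρ > ρ₀`. -/
def Limits (a b : 𝓞 K) (ρ₀ : ℝ) (r : ℕ) (B : ℝ) : Prop :=
  ∀ ρ ρ' : ℝ, ρ₀ < ρ → ρ < ρ' →
    Tendsto (fun Y : ℝ => mean a b ρ ρ' Y + r * Real.log (Real.log Y)) atTop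
      (𝓝 (Real.log B - r * Real.eulerMascheroniConstant / ρ))

open Pool.Agent.TH942.ES
open Pool.Agent.V11333
open Pool.Agent.H921R2.TatePole (nm)

/-- the set of the good primes -/
def gs (a b : 𝓞 K) : Set (HeightOneSpectrum (𝓞 K)) := {v | Good a b v}

/-- the eigenvalues -/
noncomputable def al (a b : 𝓞 K) (v : gs a b) (j : Fin 2) : ℂ :=
  rt (trV a b v.1) j * ((√(nm v.1 : ℝ) : ℝ) : ℂ)

theorem good_tr {a b : 𝓞 K} (v : gs a b) : |trV a b v.1| ≤ 1 := trV_abs (show GoodV a b v.1 from v.2)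

theorem al_norm {a b : 𝓞 K} (v : gs a b) (j : Fin 2) : ‖al a b v j‖ ≤ (nm v.1 : ℝ) ^ (1 / 2 : ℝ) := by
  unfold al
  rw [norm_mul, Complex.norm_real, Real.norm_eq_abs, abs_of_nonneg (Real.sqrt_nonneg _),
    ← Real.sqrt_eq_rpow]
  exact mul_le_of_le_one_left (Real.sqrt_nonneg _) (rt_norm (good_tr v) j)

theorem al_sq {a b : 𝓞 K} (v : gs a b) : ((√(nm v.1 : ℝ) : ℝ) : ℂ) ^ 2 = nm v.1 := by
  rw [← Complex.ofReal_pow, Real.sq_sqrt (Nat.cast_nonneg _), Complex.ofReal_natCast]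

theorem al_poly {a b : 𝓞 K} (v : gs a b) (z : ℂ) :
    (1 - al a b v 0 * z) * (1 - al a b v 1 * z) =
      1 - ((nrm v.1 : ℂ) - pts a b v.1) * z + nrm v.1 * z ^ 2 := by
  have h1 := rt_prod (good_tr v) (((√(nm v.1 : ℝ) : ℝ) : ℂ) * z)
  have h2 := sqrt_nm_pos v.1
  have h3 : ((√(nm v.1 : ℝ) : ℝ) : ℂ) ≠ 0 := by exact_mod_cast h2.ne'
  have h4 : (trV a b v.1 : ℂ) = ((nm v.1 : ℂ) - ptsV a b v.1) / (2 * ((√(nm v.1 : ℝ) : ℝ) : ℂ)) := by
    unfold trV
    push_cast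
    rfl
  have h5 : (nrm v.1 : ℂ) = nm v.1 := rfl
  have h6 : (pts a b v.1 : ℂ) = ptsV a b v.1 := rfl
  unfold al
  rw [h5, h6]
  calc _ = (1 - rt (trV a b v.1) 0 * (((√(nm v.1 : ℝ) : ℝ) : ℂ) * z)) *
        (1 - rt (trV a b v.1) 1 * (((√(nm v.1 : ℝ) : ℝ) : ℂ) * z)) := by ring
    _ = 1 - 2 * trV a b v.1 * (((√(nm v.1 : ℝ) : ℝ) : ℂ) * z) +
        (((√(nm v.1 : ℝ) : ℝ) : ℂ) * z) ^ 2 := h1
    _ = _ := by
      rw [mul_pow, al_sq, h4]
      field_simp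

theorem al_sum {a b : 𝓞 K} (v : gs a b) :
    al a b v 0 + al a b v 1 = (nrm v.1 : ℂ) - pts a b v.1 := by
  have h1 := al_poly v 1
  have h2 := al_poly v (-1)
  linear_combination (h2 - h1) / 2

theorem al_mul {a b : 𝓞 K} (v : gs a b) : al a b v 0 * al a b v 1 = nrm v.1 := by
  have h1 := al_poly v 1
  have h2 := al_poly v (-1)
  linear_combination (h2 + h1) / 2

theorem al_trace {a b : 𝓞 K} (v : gs a b) (k : ℕ) :
    ∑ j, al a b v j ^ k = ((trace a b v.1 k : ℝ) : ℂ) := by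
  have h1 := al_sum v
  have h2 := al_mul v
  rw [Fin.sum_univ_two]
  induction k using Nat.twoStepInduction with
  | zero =>
    rw [trace]
    norm_num
  | one =>
    rw [trace, pow_one, pow_one, h1]
    push_cast
    rfl
  | more k ih1 ih2 =>
    rw [trace]
    push_cast
    rw [← ih1, ← ih2, ← h1, ← h2]
    ring

theorem al_pure (a b : 𝓞 K) : PR.Pure (1 / 2) (al a b) :=
  ⟨al_norm, fun v k => by rw [al_trace, Complex.ofReal_im]⟩

theorem factor_eq {a b : 𝓞 K} (v : gs a b) (s : ℂ) : PR.factor (al a b) v s = factor a b v.1 s := by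
  have h0 : (nrm v.1 : ℂ) ≠ 0 := by
    have h2 := PR.nrm_two v.1
    have h3 : (0 : ℝ) < nm v.1 := by linarith
    have h4 : (nrm v.1 : ℂ) = ((nm v.1 : ℝ) : ℂ) := by
      rw [Complex.ofReal_natCast]
      rfl
    rw [h4]
    exact_mod_cast h3.ne'
  unfold PR.factor factor
  have h1 : (nm v.1 : ℂ) = nrm v.1 := rfl
  rw [Fin.prod_univ_two, ← mul_inv, h1, al_poly]
  congr 2
  rw [← Complex.cpow_nat_mul]
  calc (nrm v.1 : ℂ) * (nrm v.1 : ℂ) ^ (((2 : ℕ) : ℂ) * -s) =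
        (nrm v.1 : ℂ) ^ (1 : ℂ) * (nrm v.1 : ℂ) ^ (((2 : ℕ) : ℂ) * -s) := by rw [Complex.cpow_one]
    _ = _ := by
      rw [← Complex.cpow_add _ _ h0]
      congr 1
      push_cast
      ring

theorem sector_eq (ρ : ℝ) : CP.Sector 1 ρ = Sector ρ := by
  unfold CP.Sector Sector
  rw [Complex.ofReal_one]

theorem mean_eq (a b : 𝓞 K) (ρ ρ' Y : ℝ) : CP.mean 1 (al a b) ρ ρ' Y = mean a b ρ ρ' Y := by
  unfold CP.mean mean
  refine finsum_congr fun p => finsum_congr fun _ => ?_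
  rw [al_trace, Complex.ofReal_re, Real.rpow_one]
  rfl

theorem cont_iff (a b : 𝓞 K) (ρ₀ : ℝ) (r : ℕ) (B : ℝ) :
    CP.Continues 1 (3 / 2) (al a b) ρ₀ r B ↔ Continues a b ρ₀ r B := by
  unfold CP.Continues Continues
  simp only [sector_eq, factor_eq, Complex.ofReal_one]
  rfl

theorem real_iff (a b : 𝓞 K) (r : ℕ) (B : ℝ) :
    CP.RealContinues 1 (3 / 2) (al a b) r B ↔ RealContinues a b r B := by
  unfold CP.RealContinues RealContinues
  simp only [factor_eq, Complex.ofReal_one, Complex.ofReal_sub]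
  rfl

theorem inv_iff (a b : 𝓞 K) (r : ℕ) (B : ℝ) :
    CP.RealContinuesInv 1 (3 / 2) (al a b) r B ↔ RealContinuesInv a b r B := by
  unfold CP.RealContinuesInv RealContinuesInv
  simp only [factor_eq, Complex.ofReal_one, Complex.ofReal_sub]
  rfl

/-- **Theorem.** Let `K` be a number field, `a, b ∈ 𝓞_K`, `E : y² = x³ + a x + b`, `r` a natural number,
`B > 0` and `ρ₀ ≥ 1`. The following are equivalent:

(1) `L(E, s)` has a holomorphic continuation without zeros to the union of `Re s > 3/2` and the sector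
`|arg (s - 1)| < π/(2ρ₀)`, with `L(E, s)/(s - 1)^r → B` for `s → 1` in the sectors
`|arg (s - 1)| < π/(2ρ)`, `ρ > ρ₀`;

(2) `L(E, s)` is analytic along the real axis for `s > 1`, with `L(E, x)/(x - 1)^r → B` for real `x → 1`,
and `S_ρ(Y) + r log log Y` is bounded below for all `ρ' > ρ > ρ₀`;

(3) `1/L(E, s)` is analytic along the real axis for `s > 1`, with `(x - 1)^r/L(E, x) → 1/B` for real
`x → 1`, and `S_ρ(Y) + r log log Y` is bounded above for all `ρ' > ρ > ρ₀`;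

(4) `S_ρ(Y) + r log log Y → log B - r γ/ρ` for all `ρ' > ρ > ρ₀`.

For `ρ₀ = 1` the sector is the half plane `Re s > 1`. -/
theorem result (a b : 𝓞 K) (r : ℕ) (B : ℝ) (hB : 0 < B) (ρ₀ : ℝ) (hρ₀ : 1 ≤ ρ₀) :
    (Continues a b ρ₀ r B ↔ RealContinues a b r B ∧ Lower a b ρ₀ r) ∧
    (Continues a b ρ₀ r B ↔ RealContinuesInv a b r B ∧ Upper a b ρ₀ r) ∧
    (Continues a b ρ₀ r B ↔ Limits a b ρ₀ r B) ∧
    Sector 1 = {s : ℂ | 1 < s.re} := by
  obtain ⟨h1, h2, h3⟩ := CP.main (al_pure a b) (c := 1) (σ := 3 / 2) (by norm_num) (by norm_num)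
    hρ₀ r hB
  have k0 : CP.Limits 1 (al a b) ρ₀ r B ↔ Limits a b ρ₀ r B := by
    unfold CP.Limits Limits
    simp only [mean_eq]
  have k1 : CP.Lower 1 (al a b) ρ₀ r ↔ Lower a b ρ₀ r := by
    unfold CP.Lower Lower
    simp only [mean_eq]
  have k2 : CP.Upper 1 (al a b) ρ₀ r ↔ Upper a b ρ₀ r := by
    unfold CP.Upper Upper
    simp only [mean_eq]
  rw [k0, cont_iff] at h1
  rw [k0, real_iff, k1] at h2
  rw [k0, inv_iff, k2] at h3
  refine ⟨h1.symm.trans h2, h1.symm.trans h3, h1.symm, ?_⟩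
  ext s
  rw [← sector_eq, CP.sector_shift, sect_one]
  simp only [Set.mem_ofPred_eq, Complex.sub_re, Complex.ofReal_re, sub_pos]

end Pool.Agent.Results.MP_9ab903_nt.OneSidedLeadingTerm
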