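import Pool.Agent.Results.MP_9ab903_nt.FixedNumberThreePart
import Pool.Agent.V1176.SQ.Ratio
import Pool.Agent.V1176.SQ.Low

/-!
# The `3`-part of the Birch and Swinnerton-Dyer conjecture over `ℚ(√-3)` for cubic twists with norms in
# sparse sequences

`K` is the field of third roots of unity, and `E_D` is the curve `y² + D y = x³` over `K`.  The family, the
condition `IsRich` on the set `S` of prime ideals, and the properties `FiniteAndTrivial` and `Law` are those
of the file `FixedNumberThreePart` of this problem: `D = 1` modulo `3`, the norm of `D` is squarefree, not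
`1` modulo `9`, and has exactly `m` prime factors, and all prime ideals that contain `D` are in `S`.

That file gives the proportion of the `D` for which `E_D(K)` is finite and `Ш(E_D / K)[3^∞] = 0`
(equivalently, by `Law`: `L(E_D / K, 1)` is not zero and the `3`-part of the conjecture holds with a group
`Ш` of order prime to `3`) among all the `D` of the family of norm at most `X`.

Here only the `D` with a norm in a sequence of density zero are considered: let `c > 1` be a real number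
and `S_0, S_1, …` sets of prime ideals.  There is a set `E` of real numbers of Hausdorff dimension less than
`1` such that for all `α > 0` outside `E`, all `i` and all `m ≥ 1`: if `S_i` is rich for `m`, then there are
at least `κ N / log N` members `D` of the family with norm `⌊α n ^ c⌋`, `n ≤ N`, and the proportion of those
for which `E_D(K)` is finite and `Ш(E_D / K)[3^∞] = 0` tends to `∏_{i < m / 2} (1 - 3^{-(2 i + 1)})`.
-/

set_option autoImplicit false

namespace Pool.Agent.Results.MP_9ab903_nt.SparseSequences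

open NumberField IsDedekindDomain Filter Topology Finset
open Pool.Agent.Results.MP_9ab903_nt.FixedNumberThreePart (InFamily IsRich FiniteAndTrivial Law count
  fam_iff)
open scoped Classical

variable {K : Type} [Field K] [NumberField K]

/-- The number of the pairs `(n, D)`: `1 ≤ n ≤ N`, and `D` is in the family, has the property `Q` and
has the norm `⌊α n ^ c⌋`. -/
noncomputable def along (α c : ℝ) (S : Set (Ideal (𝓞 K))) (m : ℕ) (Q : 𝓞 K → Prop) (N : ℕ) : ℕ :=
  ∑ n ∈ Icc 1 N, {D : 𝓞 K | Algebra.norm ℤ D = (⌊α * (n : ℝ) ^ c⌋₊ : ℤ) ∧ InFamily S m D ∧ Q D}.ncard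

/-- `E_D(K)` is finite, `Ш(E_D / K)[3^∞] = 0`, and the statements `Law` on `L(E_D / K, 1)`: it is not zero,
and its quotient by the right-hand side of the conjecture without the order of `Ш` is a unit at all
valuations of `ℂ` above `3`. -/
def Good (D : 𝓞 K) : Prop := FiniteAndTrivial D ∧ Law D

section proof

open Pool.Agent.Y692.QS (Ei nr)
open Pool.Agent.Y715.T.RecG (Pq)
open Pool.Agent.Y699.E (nrm nrm_cast nrm_mul QB mem_QB PD mem_PD PS)
open Pool.Agent.V11291.EK (P1 card_norm_le)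

variable [IsCyclotomicExtension {3} ℚ K]

theorem norm_pos {S : Set (Ideal (𝓞 K))} {m : ℕ} {D : 𝓞 K} (h : InFamily S m D) :
    0 < Algebra.norm ℤ D := by
  obtain ⟨⟨j, hj⟩, -⟩ := Pool.Agent.Y455.CTK.jex K
  obtain ⟨z, rfl⟩ := j.surjective D
  have h1 := h.2.2.1
  rw [hj, ← nrm_cast] at h1 ⊢
  have h2 := h1.ne_zero
  omega

/-- the number of the members with a given norm is bounded -/
theorem card_le (S : Set (Ideal (𝓞 K))) (m t : ℕ) :
    {D : 𝓞 K | Algebra.norm ℤ D = (t : ℤ) ∧ InFamily S m D}.Finite ∧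
    {D : 𝓞 K | Algebra.norm ℤ D = (t : ℤ) ∧ InFamily S m D}.ncard ≤ 2 ^ (2 * m) := by
  obtain ⟨⟨j, hj⟩, -⟩ := Pool.Agent.Y455.CTK.jex K
  set A : Set (𝓞 K) := {D : 𝓞 K | Algebra.norm ℤ D = (t : ℤ) ∧ InFamily S m D} with hA
  let F : Finset Ei := (QB t).filter fun π => P1 π ∧ nrm π ∈ t.primeFactors
  have key : ∀ D ∈ A, PS (j.symm D) ∧ PD (j.symm D) ⊆ F ∧ t.primeFactors.card = m := by
    rintro D ⟨hD1, hD2⟩
    obtain ⟨z, rfl⟩ := j.surjective D
    rw [RingEquiv.symm_apply_apply]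
    have h1 := (Pool.Agent.V11291.EK.fam_iff j hj S m z).1 ((fam_iff S m _).1 hD2)
    have hz : PS z := ⟨h1.1.1, h1.1.2.1⟩
    rw [hj, ← nrm_cast] at hD1
    have hD1' : nrm z = t := by exact_mod_cast hD1
    have ht : t ≠ 0 := by
      rw [← hD1']
      intro h0
      exact hz.ne (Pool.Agent.Y699.E.nrm_zero_iff.1 h0)
    refine ⟨hz, fun π hπ => ?_, ?_⟩
    · have h2 := (mem_PD hz.ne).1 hπ
      have h3 : (nrm π).Prime := h1.2.2.2.1 π hπ
      have h4 : nrm π ∣ t := by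
        obtain ⟨w, hw⟩ := h2.2
        rw [← hD1', hw, nrm_mul]
        exact Dvd.intro _ rfl
      rw [mem_filter, mem_QB, Nat.mem_primeFactors]
      exact ⟨⟨Nat.le_of_dvd (Nat.pos_of_ne_zero ht) h4, h2.1⟩, ⟨h2.1, h3⟩, h3, h4, ht⟩
    · have h2 := hD2.2.2.2.1
      rw [hj, ← nrm_cast, Int.natAbs_natCast, hD1'] at h2
      exact h2
  have hF : F.card ≤ 2 * t.primeFactors.card := by
    refine Finset.card_le_mul_card_image_of_maps_to (f := nrm) (fun π hπ => ?_) _ fun q _ => ?_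
    · exact (mem_filter.1 hπ).2.2
    · exact card_norm_le _ (fun π hπ => (mem_filter.1 (mem_filter.1 hπ).1).2.1) (q := q)
        fun π hπ => (mem_filter.1 hπ).2
  have hinj : Set.InjOn (fun D : 𝓞 K => PD (j.symm D)) A := by
    intro D hD D' hD' h
    have h1 := (key D hD).1.prod
    have h2 := (key D' hD').1.prod
    simp only at h
    rw [h, h2] at h1
    exact j.symm.injective h1.symm
  have hmaps : ∀ D ∈ A, PD (j.symm D) ∈ (F.powerset : Set (Finset Ei)) := by
    intro D hD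
    rw [mem_coe, mem_powerset]
    exact (key D hD).2.1
  have hfin : A.Finite := Set.Finite.of_injOn hmaps hinj (Finset.finite_toSet _)
  refine ⟨hfin, ?_⟩
  rcases A.eq_empty_or_nonempty with h | ⟨D₀, hD₀⟩
  · rw [h, Set.ncard_empty]
    positivity
  · have h1 := Set.ncard_le_ncard_of_injOn _ hmaps hinj (Finset.finite_toSet _)
    rw [Set.ncard_coe_finset, card_powerset] at h1
    refine h1.trans (Nat.pow_le_pow_right (by norm_num) ?_)
    rw [(key D₀ hD₀).2.2] at hF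
    exact hF

end proof

/-- **The `3`-part of the Birch and Swinnerton-Dyer conjecture in sparse sequences.** -/
theorem result (K : Type) [Field K] [NumberField K] [IsCyclotomicExtension {3} ℚ K] (c : ℝ)
    (hc : 1 < c) (S : ℕ → Set (Ideal (𝓞 K))) :
    ∃ E : Set ℝ, dimH E < 1 ∧ ∀ α : ℝ, 0 < α → α ∉ E → ∀ i m : ℕ, 1 ≤ m → IsRich (S i) m →
      (∃ (κ : ℝ) (N₀ : ℕ), 0 < κ ∧ ∀ N : ℕ, N₀ ≤ N →
        κ * N / Real.log N ≤ (along α c (S i) m (fun _ => True) N : ℝ)) ∧
      Tendsto (fun N : ℕ => (along α c (S i) m Good N : ℝ) /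
        (along α c (S i) m (fun _ => True) N : ℝ)) atTop
        (𝓝 (∏ i ∈ range (m / 2), (1 - (1 / 3 : ℝ) ^ (2 * i + 1)))) := by
  obtain ⟨E, hE, h⟩ := Pool.Agent.V1176.SQ.ratioW c hc
    (fun (x : ℕ × ℕ) t => ({D : 𝓞 K | Algebra.norm ℤ D = (t : ℤ) ∧ InFamily (S x.1) x.2 D ∧
      Good D}.ncard : ℝ))
    (fun (x : ℕ × ℕ) t => ({D : 𝓞 K | Algebra.norm ℤ D = (t : ℤ) ∧ InFamily (S x.1) x.2 D ∧
      True}.ncard : ℝ))
  refine ⟨E, hE, fun α hα hαE i m hm hR => ?_⟩
  obtain ⟨hall, hLaw, -⟩ := Pool.Agent.Results.MP_9ab903_nt.FixedNumberThreePart.result K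
  obtain ⟨⟨δ, C, X₀, hδ, hC, hsize⟩, hlim⟩ := hall (S i) m hm hR
  -- counting
  have hsum : ∀ (Q : 𝓞 K → Prop) (X : ℕ), (∑ t ∈ Ioc 0 X,
      ({D : 𝓞 K | Algebra.norm ℤ D = (t : ℤ) ∧ InFamily (S i) m D ∧ Q D}.ncard : ℝ)) =
      (count (S i) m Q X : ℝ) := by
    intro Q X
    have hfin : {D : 𝓞 K | (InFamily (S i) m D ∧ Q D) ∧ Algebra.norm ℤ D ≤ X}.Finite := by
      have h1 : {D : 𝓞 K | (InFamily (S i) m D ∧ Q D) ∧ Algebra.norm ℤ D ≤ X} ⊆
          ⋃ t ∈ Ioc 0 X, {D : 𝓞 K | Algebra.norm ℤ D = (t : ℤ) ∧ InFamily (S i) m D} := by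
        rintro D ⟨⟨h1, -⟩, h2⟩
        have h3 := norm_pos h1
        simp only [Set.mem_iUnion]
        refine ⟨(Algebra.norm ℤ D).toNat, ?_, ?_, h1⟩
        · rw [mem_Ioc]
          omega
        · exact (Int.toNat_of_nonneg h3.le).symm
      refine Set.Finite.subset ?_ h1
      exact Set.Finite.biUnion (Finset.finite_toSet _) fun t _ => (card_le (S i) m t).1
    have h2 := Pool.Agent.V1176.SQ.card_size (fun D : 𝓞 K => InFamily (S i) m D ∧ Q D)
      (fun D => Algebra.norm ℤ D) (fun D hD => norm_pos hD.1) X hfin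
    rw [← Nat.cast_sum]
    congr 1
    have h3 : count (S i) m Q X =
        Nat.card {D : 𝓞 K // (InFamily (S i) m D ∧ Q D) ∧ Algebra.norm ℤ D ≤ X} :=
      Nat.card_congr (Equiv.subtypeEquivRight fun D => and_comm)
    rw [h3, h2]
    refine Finset.sum_congr rfl fun t _ => ?_
    exact Nat.card_congr (Equiv.subtypeEquivRight fun D => and_comm)
  have hgrow : ∀ Q : 𝓞 K → Prop, ∀ η : ℝ, 0 < η → ∃ C : ℝ, 0 < C ∧ ∀ t : ℕ, 1 ≤ t →
      ({D : 𝓞 K | Algebra.norm ℤ D = (t : ℤ) ∧ InFamily (S i) m D ∧ Q D}.ncard : ℝ) ≤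
        C * (t : ℝ) ^ η := by
    intro Q η hη
    refine ⟨2 ^ (2 * m), by positivity, fun t ht => ?_⟩
    have h1 : (1 : ℝ) ≤ (t : ℝ) ^ η := Real.one_le_rpow (by exact_mod_cast ht) hη.le
    obtain ⟨h2, h3⟩ := card_le (S i) m t
    have h6 : {D : 𝓞 K | Algebra.norm ℤ D = (t : ℤ) ∧ InFamily (S i) m D ∧ Q D} ⊆
        {D : 𝓞 K | Algebra.norm ℤ D = (t : ℤ) ∧ InFamily (S i) m D} := fun D hD => ⟨hD.1, hD.2.1⟩
    have h4 : {D : 𝓞 K | Algebra.norm ℤ D = (t : ℤ) ∧ InFamily (S i) m D ∧ Q D}.ncard ≤ 2 ^ (2 * m) :=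
      (Set.ncard_le_ncard h6 h2).trans h3
    have h5 : ({D : 𝓞 K | Algebra.norm ℤ D = (t : ℤ) ∧ InFamily (S i) m D ∧ Q D}.ncard : ℝ) ≤
        2 ^ (2 * m) := by exact_mod_cast h4
    exact h5.trans (le_mul_of_one_le_right (by positivity) h1)
  obtain ⟨X₁, hX₁⟩ := Pool.Agent.V1176.SQ.low_of hδ (m - 1) (f := fun X =>
    (count (S i) m (fun _ => True) X : ℝ)) fun X hX => (hsize X hX).1
  have hg : ∀ X : ℕ, count (S i) m Good X = count (S i) m FiniteAndTrivial X := by
    intro X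
    unfold count
    congr 1
    ext D
    constructor
    · rintro ⟨a, b, c1, -⟩
      exact ⟨a, b, c1⟩
    · rintro ⟨a, b, c1⟩
      exact ⟨a, b, c1, hLaw (S i) m D b⟩
  have hp1 := h α hα hαE (i, m)
  simp only at hp1
  obtain ⟨⟨κ, hκ, N₀, h1⟩, h2⟩ := hp1 (fun t => Nat.cast_nonneg _) (fun t => Nat.cast_nonneg _)
    (hgrow Good) (hgrow fun _ => True) δ
    (∏ i ∈ range (m / 2), (1 - (1 / 3 : ℝ) ^ (2 * i + 1))) X₁ hδ
    (fun X hX => by rw [hsum fun _ => True]; exact hX₁ X hX)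
    (hlim.congr fun X => by rw [hsum Good, hsum fun _ => True, hg])
  have hB : ∀ (Q : 𝓞 K → Prop) (N : ℕ), (along α c (S i) m Q N : ℝ) =
      ∑ n ∈ Icc 1 N, ({D : 𝓞 K | Algebra.norm ℤ D = ((⌊α * (n : ℝ) ^ c⌋₊ : ℕ) : ℤ) ∧
        InFamily (S i) m D ∧ Q D}.ncard : ℝ) := by
    intro Q N
    unfold along
    rw [Nat.cast_sum]
  refine ⟨⟨κ, N₀, hκ, fun N hN => ?_⟩, h2.congr fun N => by rw [hB, hB]⟩
  rw [hB]
  exact h1 N hN

end Pool.Agent.Results.MP_9ab903_nt.SparseSequences
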